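import Pool.Agent.Helper28.MT.Goals2

/-!
# PROJECT MT2 (MP_bb782b_co): packet STEP2, one step of the selection
-/

set_option autoImplicit false

namespace Pool.Agent.Helper88.MT2

open Finset
open Pool.Agent.Helper55.Rota
open Pool.Agent.Helper28.MT
open Pool.Agent.Helper28.MT2

/-- What the sets with numbers `i < j` take from a reservoir. -/
theorem card_inter_le {α : Type} [Fintype α] [DecidableEq α] (s : ℕ) (f : α → ℕ)
    (T : ℕ → Finset α) (j l g : ℕ) (h1 : ∀ i < j, T i ⊆ alw s f i) :
    ((range j).biUnion T ∩ rsv s l g f).card ≤ usd (ug s f T) j l g := by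
  have hsub : (range j).biUnion T ∩ rsv s l g f ⊆
      ((range j).filter (fun i => i / 2 ^ l = g)).biUnion
        (fun i => T i ∩ rsv s l (i / 2 ^ l) f) := by
    intro x hx
    rw [mem_inter, mem_biUnion] at hx
    obtain ⟨⟨i, hi, hxi⟩, hxr⟩ := hx
    have hxr' := hxr
    rw [rsv, mem_filter] at hxr
    obtain ⟨_, hl, hg⟩ := hxr
    have ha := h1 i (mem_range.mp hi) hxi
    rw [alw, mem_filter, hl] at ha
    have hig : i / 2 ^ l = g := by rw [← ha.2, hg]
    rw [mem_biUnion]
    exact ⟨i, mem_filter.mpr ⟨hi, hig⟩, mem_inter.mpr ⟨hxi, by rw [hig]; exact hxr'⟩⟩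
  exact (card_le_card hsub).trans card_biUnion_le

/-- The weights are positive. -/
theorem wg_pos (h k s : ℕ) (u : ℕ → ℕ → ℕ) (j l : ℕ) : 0 < wg h k s u j l := by
  unfold wg
  split_ifs
  · exact Real.exp_pos _
  · positivity

theorem usd_congr {u u' : ℕ → ℕ → ℕ} {j : ℕ} (hu : ∀ i < j, ∀ l, u i l = u' i l) (l g : ℕ) :
    usd u j l g = usd u' j l g := by
  unfold usd
  refine sum_congr rfl fun i hi => ?_
  exact hu i (mem_range.mp (mem_filter.mp hi).1) l

theorem pot_congr {h k s : ℕ} {u u' : ℕ → ℕ → ℕ} {j : ℕ} (hu : ∀ i < j, ∀ l, u i l = u' i l) :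
    pot h k s u j = pot h k s u' j := by
  unfold pot
  have h1 : ∑ i ∈ range j, (u i (s + 1) : ℝ) = ∑ i ∈ range j, (u' i (s + 1) : ℝ) :=
    sum_congr rfl fun i hi => by rw [hu i (mem_range.mp hi)]
  rw [h1]
  congr 1
  refine sum_congr rfl fun l _ => sum_congr rfl fun g _ => ?_
  rw [usd_congr hu]

theorem wg_congr {h k s : ℕ} {u u' : ℕ → ℕ → ℕ} {j : ℕ} (hu : ∀ i < j, ∀ l, u i l = u' i l)
    (l : ℕ) : wg h k s u j l = wg h k s u' j l := by
  unfold wg
  rw [usd_congr hu]

theorem mt2_step2 : G_STEPW → G_POTS → G_POTB → G_STEP2 := by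
  intro hSTEPW hPOTS hPOTB α _ _ R n k h s b f T j hk hnk hs hsh hj hbig hr hpos hlab hG
  obtain ⟨h1, h2, h3⟩ := hG
  obtain ⟨_, hB⟩ := hPOTB h k s (ug s f T) j hs hsh hbig hj.le
  obtain ⟨hB1, hB2⟩ := hB h3
  have hA : ∀ l ≤ s, ((range j).biUnion T ∩ rsv s l (j / 2 ^ l) f).card ≤ 4 * h * k := by
    intro l hl
    refine (card_inter_le s f T j l _ fun i hi => (h1 i hi).1).trans ?_
    rcases l with _ | l
    · have h0 : usd (ug s f T) j 0 (j / 2 ^ 0) = 0 := by
        unfold usd
        rw [filter_false_of_mem, sum_empty]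
        intro i hi
        have := mem_range.mp hi
        simp only [pow_zero, Nat.div_one]
        omega
      rw [h0]
      exact Nat.zero_le _
    · refine hB1 l (by omega) _ ?_
      refine Nat.div_lt_of_lt_mul ?_
      rw [← pow_add]
      have h4 : l + 1 + (s - (l + 1)) = s := by omega
      rw [h4]
      exact hj
  have hBt : 8 * ((range j).biUnion T ∩ rsv s (s + 1) 0 f).card ≤ k := by
    have h4 := card_inter_le s f T j (s + 1) 0 fun i hi => (h1 i hi).1
    have h5 : usd (ug s f T) j (s + 1) 0 ≤ ∑ i ∈ range j, ug s f T i (s + 1) := by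
      unfold usd
      exact sum_le_sum_of_subset (filter_subset _ _)
    omega
  obtain ⟨Tj, hT1, hT2, hT3, hT4⟩ := hSTEPW α R n k h s b f j ((range j).biUnion T)
    (fun l => wg h k s (ug s f T) j l) hk hs hj hr hpos hlab hA hBt (fun l => wg_pos _ _ _ _ _ _)
  have hcard : Tj.card = n := by
    have h4 := card_eq_sum_card_fiberwise (s := Tj) (t := univ) (f := b)
      (fun x _ => mem_coe.mpr (mem_univ _))
    rw [h4, sum_congr rfl (fun a _ => hT2 a)]
    simp
  have hupd : ∀ i < j, Function.update T j Tj i = T i := fun i hi =>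
    Function.update_of_ne (by omega) _ _
  have hupj : Function.update T j Tj j = Tj := Function.update_self _ _ _
  have hu : ∀ i < j, ∀ l, ug s f (Function.update T j Tj) i l = ug s f T i l := by
    intro i hi l
    unfold ug
    rw [hupd i hi]
  have hdis : ∀ i < j, Disjoint Tj (T i) := by
    intro i hi
    rw [Finset.disjoint_left]
    intro x hx hxi
    have h4 := hT1 hx
    rw [mem_sdiff] at h4
    exact h4.2 (mem_biUnion.mpr ⟨i, mem_range.mpr hi, hxi⟩)
  refine ⟨Function.update T j Tj, ?_, ?_, ?_⟩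
  · intro i hi
    rcases Nat.lt_succ_iff_lt_or_eq.mp hi with hi | hi
    · rw [hupd i hi]
      exact h1 i hi
    · subst hi
      rw [hupj]
      exact ⟨fun x hx => (mem_sdiff.mp (hT1 hx)).1, hT2, hT3⟩
  · intro i hi i' hi' hne
    rcases Nat.lt_succ_iff_lt_or_eq.mp hi with hi | hi
    · rcases Nat.lt_succ_iff_lt_or_eq.mp hi' with hi' | hi'
      · rw [hupd i hi, hupd i' hi']
        exact h2 i hi i' hi' hne
      · subst hi'
        rw [hupd i hi, hupj]
        exact (hdis i hi).symm
    · rcases Nat.lt_succ_iff_lt_or_eq.mp hi' with hi' | hi'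
      · subst hi
        rw [hupd i' hi', hupj]
        exact hdis i' hi'
      · omega
  · have h4 : pot h k s (ug s f (Function.update T j Tj)) (j + 1) ≤
        pot h k s (ug s f (Function.update T j Tj)) j := by
      refine hPOTS h k s _ j hk hs hj ?_ ?_
      · intro l _
        unfold ug
        rw [hupj]
        exact ((card_le_card inter_subset_left).trans hcard.le).trans hnk
      · have h5 : ∀ l, wg h k s (ug s f (Function.update T j Tj)) j l =
            wg h k s (ug s f T) j l := fun l => wg_congr hu l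
        have h6 : ∀ l, ug s f (Function.update T j Tj) j (l + 1) =
            (Tj ∩ rsv s (l + 1) (j / 2 ^ (l + 1)) f).card := by
          intro l
          unfold ug
          rw [hupj]
        simp only [h5, h6]
        exact hT4
    rw [pot_congr hu] at h4
    exact h4.trans h3

end Pool.Agent.Helper88.MT2
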